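import Pool.Agent.H41.HYP.S4

/-!
# HYP, EXPO: comparison of exponents
-/

set_option autoImplicit false

namespace Pool.HYP

open Pool.AVS

theorem dd_rev {g : ℕ} (μ : Fin g → ℕ) (i : Fin (2 * g + 1)) : dd μ i.rev = -dd μ i := by
  have hi := i.isLt
  unfold dd
  have h1 : ((i.rev : Fin (2 * g + 1)) : ℕ) = 2 * g - i := by
    rw [Fin.val_rev]
    omega
  by_cases h : (i : ℕ) < g
  · have h2 : ¬ ((i.rev : Fin (2 * g + 1)) : ℕ) < g := by omega
    have h3 : 2 * g - ((i.rev : Fin (2 * g + 1)) : ℕ) < g := by omega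
    rw [dif_neg h2, dif_pos h3, dif_pos h, neg_neg]
    congr 3
    omega
  · by_cases h' : 2 * g - (i : ℕ) < g
    · have h2 : ((i.rev : Fin (2 * g + 1)) : ℕ) < g := by omega
      rw [dif_pos h2, dif_neg h, dif_pos h']
      congr 4
    · have h2 : ¬ ((i.rev : Fin (2 * g + 1)) : ℕ) < g := by omega
      have h3 : ¬ 2 * g - ((i.rev : Fin (2 * g + 1)) : ℕ) < g := by omega
      rw [dif_neg h2, dif_neg h3, dif_neg h, dif_neg h', neg_zero]

theorem dd_mono {g : ℕ} {μ : Fin g → ℕ} (hμ : Antitone μ) : Monotone (dd μ) := by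
  intro i j hij
  have hi := i.isLt
  have hj := j.isLt
  have hij' : (i : ℕ) ≤ j := hij
  unfold dd
  by_cases h1 : (i : ℕ) < g
  · rw [dif_pos h1]
    by_cases h2 : (j : ℕ) < g
    · rw [dif_pos h2]
      have := hμ (show (⟨i, h1⟩ : Fin g) ≤ ⟨j, h2⟩ from hij')
      omega
    · rw [dif_neg h2]
      by_cases h3 : 2 * g - (j : ℕ) < g
      · rw [dif_pos h3]
        omega
      · rw [dif_neg h3]
        omega
  · rw [dif_neg h1, dif_neg (show ¬ (j : ℕ) < g by omega)]
    by_cases h2 : 2 * g - (i : ℕ) < g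
    · have h3 : 2 * g - (j : ℕ) < g := by omega
      rw [dif_pos h2, dif_pos h3]
      have := hμ (show (⟨2 * g - j, h3⟩ : Fin g) ≤ ⟨2 * g - i, h2⟩ from by
        show 2 * g - (j : ℕ) ≤ 2 * g - i
        omega)
      omega
    · rw [dif_neg h2]
      by_cases h3 : 2 * g - (j : ℕ) < g
      · rw [dif_pos h3]
        omega
      · rw [dif_neg h3]

/-- The number of pairs `i ≤ j`. -/
theorem count_le (g : ℕ) : (∑ i : Fin (2 * g + 1), ∑ j : Fin (2 * g + 1), if i ≤ j then 1 else 0) =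
    (2 * g + 1) * (g + 1) := by
  have h1 : ∀ i : Fin (2 * g + 1), (∑ j : Fin (2 * g + 1), if i ≤ j then 1 else 0) =
      2 * g + 1 - (i : ℕ) := by
    intro i
    rw [← Finset.card_filter, ← Fin.card_Ici]
    congr 1
    ext j
    simp
  have h3 : ∑ i ∈ Finset.range (2 * g + 1), (2 * g + 1 - i) =
      ∑ i ∈ Finset.range (2 * g + 1), (i + 1) := by
    rw [← Finset.sum_range_reflect (fun i => i + 1) (2 * g + 1)]
    refine Finset.sum_congr rfl fun i hi => ?_
    rw [Finset.mem_range] at hi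
    omega
  rw [Finset.sum_congr rfl fun i _ => h1 i, Fin.sum_univ_eq_sum_range (fun i => 2 * g + 1 - i), h3]
  have h2 := Finset.sum_range_id_mul_two (2 * g + 2)
  rw [Finset.sum_range_succ', add_zero] at h2
  have h4 : (2 * g + 2) * (2 * g + 2 - 1) = (2 * g + 1) * (g + 1) * 2 := by
    have : 2 * g + 2 - 1 = 2 * g + 1 := by omega
    rw [this]
    ring
  rw [h4] at h2
  exact Nat.eq_of_mul_eq_mul_right (by norm_num) h2

theorem sum_rev {g : ℕ} (F : Fin (2 * g + 1) → ℕ) : ∑ i, F i = ∑ i, F (Fin.rev i) :=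
  (Equiv.sum_comp Fin.revPerm F).symm

theorem sum_revZ {g : ℕ} (F : Fin (2 * g + 1) → ℤ) : ∑ i, F i = ∑ i, F (Fin.rev i) :=
  (Equiv.sum_comp Fin.revPerm F).symm

theorem expo1 {g : ℕ} {μ : Fin g → ℕ} (hμ : Antitone μ) :
    EG μ + EV μ ≤ EU μ + (2 * g + 1) * (g + 1) := by
  set x : Fin (2 * g + 1) → Fin (2 * g + 1) → ℕ := fun i j => (dd μ i + dd μ j + 1).toNat with hx
  have hG : EG μ = ∑ i, ∑ j, if i ≤ j then x i j else 0 := rfl
  have hV : EV μ = ∑ i, ∑ j, if j < i then x i j else 0 := by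
    rw [EV, sumLt, sum_rev]
    refine Finset.sum_congr rfl fun i _ => ?_
    rw [sum_rev]
    refine Finset.sum_congr rfl fun j _ => ?_
    rw [dd_rev, dd_rev]
    by_cases h : j < i
    · rw [if_pos (Fin.rev_lt_rev.2 h), if_pos h, hx]
      congr 1
      ring
    · rw [if_neg (fun h' => h (Fin.rev_lt_rev.1 h')), if_neg h]
  have hU : EU μ = ∑ i, ∑ j, if Fin.rev i < j then x i j else 0 := by
    rw [EU, sumLt, sum_rev]
    refine Finset.sum_congr rfl fun i _ => ?_
    refine Finset.sum_congr rfl fun j _ => ?_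
    rw [dd_rev]
    congr 2
    ring
  have hC : (2 * g + 1) * (g + 1) = ∑ i : Fin (2 * g + 1), ∑ j : Fin (2 * g + 1),
      if j ≤ Fin.rev i then 1 else 0 := by
    rw [← count_le, Finset.sum_comm, sum_rev (fun i => ∑ j, if j ≤ Fin.rev i then 1 else 0)]
    refine Finset.sum_congr rfl fun i _ => ?_
    rw [Fin.rev_rev]
  rw [hG, hV, hU, hC, ← Finset.sum_add_distrib, ← Finset.sum_add_distrib]
  refine Finset.sum_le_sum fun i _ => ?_
  rw [← Finset.sum_add_distrib, ← Finset.sum_add_distrib]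
  refine Finset.sum_le_sum fun j _ => ?_
  have h1 : ((if i ≤ j then x i j else 0) + if j < i then x i j else 0) = x i j := by
    by_cases h : i ≤ j
    · rw [if_pos h, if_neg (not_lt.2 h), add_zero]
    · rw [if_neg h, if_pos (not_le.1 h), zero_add]
  rw [h1]
  by_cases h : Fin.rev i < j
  · rw [if_pos h]
    exact Nat.le_add_right _ _
  · have h2 := dd_mono hμ (not_lt.1 h)
    rw [dd_rev] at h2
    rw [if_neg h, if_pos (not_lt.1 h), hx]
    show (dd μ i + dd μ j + 1).toNat ≤ 0 + 1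
    omega

theorem expo2 {g : ℕ} (μ : Fin g → ℕ) : ∑ i, μ i ≤ EV μ := by
  rw [EV, sumLt]
  have h1 : ∀ i : Fin g, (⟨i, by omega⟩ : Fin (2 * g + 1)) < ⟨g, by omega⟩ := fun i => i.isLt
  have h2 : ∀ i : Fin g, μ i ≤ ∑ j : Fin (2 * g + 1), if (⟨i, by omega⟩ : Fin (2 * g + 1)) < j then
      (-(dd μ ⟨i, by omega⟩ + dd μ j) + 1).toNat else 0 := by
    intro i
    refine le_trans ?_ (Finset.single_le_sum (fun j _ => Nat.zero_le _)
      (Finset.mem_univ (⟨g, by omega⟩ : Fin (2 * g + 1))))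
    rw [if_pos (h1 i)]
    have h3 : dd μ ⟨(i : ℕ), by omega⟩ = -(μ i : ℤ) := by
      unfold dd
      rw [dif_pos i.isLt]
    have h4 : dd μ ⟨g, by omega⟩ = 0 := by
      unfold dd
      rw [dif_neg (lt_irrefl g), dif_neg (show ¬ 2 * g - g < g by omega)]
    rw [h3, h4]
    omega
  calc ∑ i, μ i ≤ ∑ i : Fin g, ∑ j : Fin (2 * g + 1), (if (⟨i, by omega⟩ : Fin (2 * g + 1)) < j then
        (-(dd μ ⟨i, by omega⟩ + dd μ j) + 1).toNat else 0) := Finset.sum_le_sum fun i _ => h2 i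
    _ = ∑ i ∈ Finset.univ.map ⟨fun i : Fin g => (⟨i, by omega⟩ : Fin (2 * g + 1)), fun a b hab => by
          have := congrArg Fin.val hab
          exact Fin.ext this⟩, ∑ j : Fin (2 * g + 1), (if i < j then
        (-(dd μ i + dd μ j) + 1).toNat else 0) := by
      rw [Finset.sum_map]
      rfl
    _ ≤ _ := Finset.sum_le_sum_of_subset (Finset.subset_univ _)

theorem sum_dd {g : ℕ} (μ : Fin g → ℕ) :
    ∑ i : Fin (2 * g + 1), ∑ j : Fin (2 * g + 1), (if i ≤ j then dd μ i + dd μ j else 0) = 0 := by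
  have h1 : ∑ i : Fin (2 * g + 1), ∑ j : Fin (2 * g + 1), (if i ≤ j then dd μ i + dd μ j else 0) =
      -∑ i : Fin (2 * g + 1), ∑ j : Fin (2 * g + 1), (if i ≤ j then dd μ i + dd μ j else 0) := by
    conv_lhs => rw [sum_revZ, Finset.sum_congr rfl fun i _ => sum_revZ _, Finset.sum_comm]
    rw [← Finset.sum_neg_distrib]
    refine Finset.sum_congr rfl fun i _ => ?_
    rw [← Finset.sum_neg_distrib]
    refine Finset.sum_congr rfl fun j _ => ?_
    rw [dd_rev, dd_rev]
    by_cases h : i ≤ j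
    · rw [if_pos (Fin.rev_le_rev.2 h), if_pos h]
      ring
    · rw [if_neg (fun h' => h (Fin.rev_le_rev.1 h')), if_neg h, neg_zero]
  omega

theorem expo3 {g : ℕ} (μ : Fin g → ℕ) (h : ℕ) :
    ES μ h = (h + 1) * ((2 * g + 1) * (g + 1)) + EW μ h := by
  have h1 : ((ES μ h : ℕ) : ℤ) = (((h + 1) * ((2 * g + 1) * (g + 1)) + EW μ h : ℕ) : ℤ) := by
    rw [ES, EW, sumLe, sumLe, ← count_le g]
    push_cast
    have h2 := sum_dd μ
    have h3 : ((h : ℤ) + 1) * ∑ i : Fin (2 * g + 1), ∑ j : Fin (2 * g + 1), (if i ≤ j then 1 else 0) =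
        (∑ i : Fin (2 * g + 1), ∑ j : Fin (2 * g + 1), (if i ≤ j then ((h : ℤ) + 1) else 0)) := by
      rw [Finset.mul_sum]
      refine Finset.sum_congr rfl fun i _ => ?_
      rw [Finset.mul_sum]
      refine Finset.sum_congr rfl fun j _ => ?_
      rw [mul_ite, mul_one, mul_zero]
    have h5 : (∑ i : Fin (2 * g + 1), ∑ j : Fin (2 * g + 1), (if i ≤ j then ((h : ℤ) + 1) else 0)) =
        (∑ i : Fin (2 * g + 1), ∑ j : Fin (2 * g + 1), (if i ≤ j then ((h : ℤ) + 1) else 0)) +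
        ∑ i : Fin (2 * g + 1), ∑ j : Fin (2 * g + 1), (if i ≤ j then dd μ i + dd μ j else 0) := by
      rw [h2, add_zero]
    rw [h3, h5, ← Finset.sum_add_distrib, ← Finset.sum_add_distrib]
    refine Finset.sum_congr rfl fun i _ => ?_
    rw [← Finset.sum_add_distrib, ← Finset.sum_add_distrib]
    refine Finset.sum_congr rfl fun j _ => ?_
    by_cases h4 : i ≤ j
    · simp only [if_pos h4]
      omega
    · simp only [if_neg h4, add_zero]
  exact_mod_cast h1

theorem expo : EXPOStmt := fun _ h μ hμ => ⟨expo1 hμ, expo2 μ, expo3 μ h⟩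

end Pool.HYP
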