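import Pool.Agent.H41.HYP.S1

/-!
# HYP, NRC: the norm of `K[x]/(f)` is a resultant; the norm of the class of a divisor
-/

set_option autoImplicit false

namespace Pool.HYP

open Polynomial Matrix

/-- The characteristic polynomial of multiplication by the root. -/
theorem charpoly_root {K : Type} [Field K] {f : K[X]} (hf : f.Monic) :
    (Algebra.leftMulMatrix (AdjoinRoot.powerBasis' hf).basis (AdjoinRoot.root f)).charpoly = f := by
  set b := (AdjoinRoot.powerBasis' hf).basis with hb
  set M := Algebra.leftMulMatrix b (AdjoinRoot.root f) with hM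
  have h1 : aeval (AdjoinRoot.root f) M.charpoly = 0 := by
    apply (injective_iff_map_eq_zero (Algebra.leftMulMatrix b)).mp
      (Algebra.leftMulMatrix_injective b)
    rw [← aeval_algHom_apply, ← hM, Matrix.aeval_self_charpoly]
  rw [AdjoinRoot.aeval_eq, AdjoinRoot.mk_eq_zero] at h1
  refine eq_of_monic_of_dvd_of_natDegree_le hf M.charpoly_monic h1 ?_
  rw [Matrix.charpoly_natDegree_eq_dim, Fintype.card_fin]
  exact le_rfl

/-- The determinant of a polynomial in a matrix over an algebraically closed field. -/
theorem det_aeval {E : Type} [Field E] [IsAlgClosed E] {n : ℕ} (M : Matrix (Fin n) (Fin n) E)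
    (h : E[X]) :
    (aeval M h).det = ((-1) ^ n) ^ h.natDegree * (h.leadingCoeff ^ n *
      (h.roots.map fun a => M.charpoly.eval a).prod) := by
  have h1 : h = C h.leadingCoeff * (h.roots.map fun a => X - C a).prod :=
    (IsAlgClosed.splits h).eq_prod_roots
  have h2 : ∀ a : E, (aeval M (X - C a)).det = (-1) ^ n * M.charpoly.eval a := by
    intro a
    rw [Matrix.eval_charpoly]
    have h3 : aeval M (X - C a) = -(Matrix.scalar (Fin n) a - M) := by
      rw [map_sub, aeval_X, aeval_C, neg_sub]
      rfl
    rw [h3, Matrix.det_neg, Fintype.card_fin]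
  have h4 : Multiset.card h.roots = h.natDegree := (IsAlgClosed.splits h).natDegree_eq_card_roots.symm
  have h5 : (aeval M (h.roots.map fun a => X - C a).prod).det =
      (h.roots.map fun a => (-1) ^ n * M.charpoly.eval a).prod := by
    let φ : E[X] →* E := (Matrix.detMonoidHom (n := Fin n) (R := E)).comp
      ((aeval M : E[X] →ₐ[E] Matrix (Fin n) (Fin n) E) : E[X] →* Matrix (Fin n) (Fin n) E)
    have h6 : ∀ p, φ p = (aeval M p).det := fun p => rfl
    rw [← h6, map_multiset_prod, Multiset.map_map]
    congr 1
    refine Multiset.map_congr rfl fun a _ => ?_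
    exact h2 a
  conv_lhs => rw [h1]
  rw [map_mul, Matrix.det_mul, h5, Multiset.prod_map_mul, Multiset.map_const', Multiset.prod_replicate,
    h4, aeval_C, Matrix.algebraMap_eq_diagonal, Matrix.det_diagonal]
  simp only [Pi.algebraMap_apply, Algebra.algebraMap_self, RingHom.id_apply, Finset.prod_const,
    Finset.card_univ, Fintype.card_fin]
  ring

/-- The norm of `K[x]/(f)` is a resultant. -/
theorem norm_eq_resultant {K : Type} [Field K] {f : K[X]} (hf : f.Monic) (h : K[X]) :
    Algebra.norm K (AdjoinRoot.mk f h) = resultant f h f.natDegree h.natDegree := by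
  set b := (AdjoinRoot.powerBasis' hf).basis with hb
  set M := Algebra.leftMulMatrix b (AdjoinRoot.root f) with hM
  have h1 : Algebra.norm K (AdjoinRoot.mk f h) = (aeval M h).det := by
    rw [Algebra.norm_eq_matrix_det b, hM, aeval_algHom_apply, AdjoinRoot.aeval_eq]
  let E := AlgebraicClosure K
  let ι : K →+* E := algebraMap K E
  apply ι.injective
  have h2 : ι (aeval M h).det = (aeval (M.map ι) (h.map ι)).det := by
    rw [RingHom.map_det]
    congr 1
    rw [aeval_def, aeval_def, hom_eval₂, eval₂_map]
    congr 1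
    ext x i j
    simp [Matrix.algebraMap_matrix_apply, apply_ite ι]
  have h3 : (M.map ι).charpoly = f.map ι := by
    rw [Matrix.charpoly_map, hM, charpoly_root hf]
  have h4 : (h.map ι).natDegree = h.natDegree := natDegree_map ι
  have h5 : (f.map ι).natDegree = f.natDegree := natDegree_map ι
  rw [h1, h2, det_aeval, h3, ← resultant_map_map, resultant_comm]
  conv_rhs => rw [← h4, ← h5]
  rw [resultant_eq_prod_eval _ _ _ le_rfl (IsAlgClosed.splits _), h5, h4, ← pow_mul]
  simp only [AdjoinRoot.powerBasis'_dim]

theorem nrc : NRCStmt := by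
  intro K _ f u w hf _ hu _ hd
  refine ⟨Algebra.norm K (AdjoinRoot.mk u w), ?_⟩
  have h1 : AdjoinRoot.mk u f = AdjoinRoot.mk u w * AdjoinRoot.mk u w := by
    rw [← map_mul, ← sub_eq_zero, ← map_sub, AdjoinRoot.mk_eq_zero, ← pow_two,
      ← dvd_neg, neg_sub]
    exact hd
  rw [← map_mul, ← h1, norm_eq_resultant hu f, resultant_comm, ← norm_eq_resultant hf u, kap,
    map_mul, map_mul, map_pow, map_neg, map_one]
  congr 1
  have h2 : ((-1 : AdjoinRoot f)) ^ u.natDegree = algebraMap K (AdjoinRoot f) ((-1) ^ u.natDegree) := by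
    rw [map_pow, map_neg, map_one]
  rw [h2, Algebra.norm_algebraMap]
  have h3 : Module.finrank K (AdjoinRoot f) = f.natDegree := by
    rw [(AdjoinRoot.powerBasis' hf).finrank, AdjoinRoot.powerBasis'_dim]
  rw [h3, pow_mul]

end Pool.HYP
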