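import Pool.Agent.H41.HYP.S2
import Pool.Agent.H97.PRL.LHL
import Pool.Agent.H85.HYP.NRC

/-!
# HYP, EVN: the class of a divisor is the class of a unit
-/

set_option autoImplicit false

namespace Pool.HYP

open Polynomial Pool.AVS

section

variable {L : Type} [Field L] {O : ValuationSubring L} {π : L}

theorem zpow_unit (H : Loc L O π) {m : ℤ} (h1 : π ^ m ∈ O) (h2 : (π ^ m)⁻¹ ∈ O) : m = 0 := by
  have hpi := H.pi_ne
  have hinv := LocB.pi_inv H
  rcases lt_trichotomy m 0 with h | h | h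
  · exfalso
    obtain ⟨k, hk⟩ : ∃ k : ℕ, m = -(k + 1 : ℤ) := ⟨(-m - 1).toNat, by omega⟩
    apply hinv
    have h3 : π⁻¹ = π ^ m * π ^ k := by
      rw [hk, ← zpow_natCast, ← zpow_add₀ hpi, ← zpow_neg_one]
      congr 1
      ring
    rw [h3]
    exact O.mul_mem _ _ h1 (pow_mem H.pi_mem k)
  · exact h
  · exfalso
    obtain ⟨k, hk⟩ : ∃ k : ℕ, m = (k + 1 : ℤ) := ⟨(m - 1).toNat, by omega⟩
    apply hinv
    have h3 : π⁻¹ = (π ^ m)⁻¹ * π ^ k := by
      rw [hk, ← zpow_natCast, ← zpow_neg, ← zpow_add₀ hpi, ← zpow_neg_one]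
      congr 1
      ring
    rw [h3]
    exact O.mul_mem _ _ h2 (pow_mem H.pi_mem k)

theorem sq_par (H : Loc L O π) {η : L} {a : ℤ} (hη : UI (O : Set L) η)
    (hr : IsSquare (π ^ a * η)) : Even a := by
  have hpi := H.pi_ne
  obtain ⟨r, hr⟩ := hr
  have hr0 : r ≠ 0 := by
    rintro rfl
    rw [mul_zero] at hr
    exact mul_ne_zero (zpow_ne_zero a hpi) hη.1 hr
  obtain ⟨j, h1, h2⟩ := H.arch r hr0
  have h3 : π ^ (a - 2 * j) = (r / π ^ j) * (r / π ^ j) * η⁻¹ := by
    have h4 : π ^ (a - 2 * j) = π ^ a / (π ^ j * π ^ j) := by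
      rw [zpow_sub₀ hpi, two_mul, zpow_add₀ hpi]
    have h5 := hη.1
    have h6 : π ^ j ≠ 0 := zpow_ne_zero j hpi
    rw [h4]
    field_simp
    linear_combination hr
  have h4 : a - 2 * j = 0 := by
    apply zpow_unit H
    · rw [h3]
      exact O.mul_mem _ _ (O.mul_mem _ _ h1 h1) hη.2.2
    · rw [h3, mul_inv, mul_inv, inv_inv]
      exact O.mul_mem _ _ (O.mul_mem _ _ h2 h2) hη.2.1
  exact ⟨j, by omega⟩

/-- A primitive multiple. -/
theorem exists_prim (H : Loc L O π) (u : L[X]) (hu : u ≠ 0) :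
    ∃ (e : ℤ) (v : O[X]), oL O v = C (π ^ e) * u ∧ rd O v ≠ 0 := by
  classical
  have hpi := H.pi_ne
  have h1 : ∀ i : ℕ, ∃ n : ℤ, u.coeff i ≠ 0 →
      u.coeff i / π ^ n ∈ O ∧ (u.coeff i / π ^ n)⁻¹ ∈ O := by
    intro i
    by_cases h : u.coeff i = 0
    · exact ⟨0, fun h' => (h' h).elim⟩
    · obtain ⟨n, hn⟩ := H.arch _ h
      exact ⟨n, fun _ => hn⟩
  choose N hN using h1
  obtain ⟨i0, hi0, hmin⟩ := Finset.exists_min_image u.support N
    (Polynomial.nonempty_support_iff.2 hu)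
  have hi0' : u.coeff i0 ≠ 0 := Polynomial.mem_support_iff.1 hi0
  have h2 : C (π ^ (-N i0)) * u ∈ Polynomial.lifts (algebraMap O L) := by
    rw [Polynomial.lifts_iff_coeff_lifts]
    intro i
    rw [coeff_C_mul]
    by_cases h : u.coeff i = 0
    · rw [h, mul_zero]
      exact ⟨0, map_zero _⟩
    · have h3 := hmin i (Polynomial.mem_support_iff.2 h)
      obtain ⟨k, hk⟩ : ∃ k : ℕ, N i - N i0 = k := ⟨(N i - N i0).toNat, by omega⟩
      have h4 : π ^ (-N i0) * u.coeff i = u.coeff i / π ^ (N i) * π ^ k := by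
        rw [← zpow_natCast, ← hk, zpow_sub₀ hpi, zpow_neg]
        have h5 : π ^ (N i) ≠ 0 := zpow_ne_zero _ hpi
        have h6 : π ^ (N i0) ≠ 0 := zpow_ne_zero _ hpi
        field_simp
      rw [h4]
      exact ⟨⟨_, O.mul_mem _ _ (hN i h).1 (pow_mem H.pi_mem k)⟩, rfl⟩
  obtain ⟨v, hv⟩ := (Polynomial.mem_lifts _).1 h2
  refine ⟨-N i0, v, hv, ?_⟩
  intro h3
  have h4 : IsLocalRing.residue O (v.coeff i0) = 0 := by
    rw [← coeff_map]
    exact (congrArg (fun q => coeff q i0) h3).trans (coeff_zero i0)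
  rw [IsLocalRing.residue_eq_zero_iff, IsLocalRing.mem_maximalIdeal, mem_nonunits_iff] at h4
  apply h4
  have h5 : ((v.coeff i0 : O) : L) = u.coeff i0 / π ^ (N i0) := by
    have h6 : (algebraMap O L) (v.coeff i0) = (C (π ^ (-N i0)) * u).coeff i0 := by
      rw [← hv, coeff_map]
    rw [coeff_C_mul, zpow_neg] at h6
    rw [div_eq_inv_mul, ← h6]
    rfl
  refine IsUnit.of_mul_eq_one (⟨(u.coeff i0 / π ^ (N i0))⁻¹, (hN i0 hi0').2⟩ : O) ?_
  apply Subtype.ext
  show ((v.coeff i0 : O) : L) * (u.coeff i0 / π ^ (N i0))⁻¹ = 1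
  rw [h5]
  exact mul_inv_cancel₀ (div_ne_zero hi0' (zpow_ne_zero _ hpi))

/-- The norm of a polynomial which is a unit modulo `(π, f)` is a unit. -/
theorem norm_unit {O : ValuationSubring L} {f p : O[X]} (hf : f.Monic)
    (h : IsCoprime (rd O p) (rd O f)) :
    UI (O : Set L) (Algebra.norm L (AdjoinRoot.mk (oL O f) (oL O p))) := by
  have hinj : Function.Injective (algebraMap O L) := Subtype.val_injective
  rw [norm_eq_resultant (hf.map _), natDegree_map_eq_of_injective hinj,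
    natDegree_map_eq_of_injective hinj, resultant_map_map]
  set ρ := resultant f p f.natDegree p.natDegree with hρ
  have h1 : IsUnit ρ := by
    by_contra hc
    have h2 : IsLocalRing.residue O ρ = 0 := by
      rw [IsLocalRing.residue_eq_zero_iff, IsLocalRing.mem_maximalIdeal, mem_nonunits_iff]
      exact hc
    rw [hρ, ← resultant_map_map] at h2
    have h3 : (rd O f).natDegree = f.natDegree := hf.natDegree_map _
    obtain ⟨k, hk⟩ := Nat.exists_eq_add_of_le (natDegree_map_le (p := p) (f := IsLocalRing.residue O))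
    rw [hk, resultant_add_right_deg _ _ _ _ k le_rfl, ← h3, coeff_natDegree,
      (hf.map (IsLocalRing.residue O)).leadingCoeff, one_pow, one_mul] at h2
    exact resultant_ne_zero _ _ h.symm h2
  obtain ⟨ρ', hρ'⟩ := h1.exists_right_inv
  have h4 : (ρ : L) * (ρ' : L) = 1 := congrArg Subtype.val hρ'
  refine ⟨left_ne_zero_of_mul_eq_one h4, ρ.2, ?_⟩
  have h5 : ((algebraMap O L) ρ)⁻¹ = (ρ' : L) := inv_eq_of_mul_eq_one_right h4
  rw [h5]
  exact ρ'.2

end

theorem evn (h0 : EV0Stmt) (h1 : EV1Stmt) (h2 : EV2Stmt) : EVNStmt := by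
  intro L _ O π H ϖ f u w s h δ ε hϖ hf hodd hns hu huf hδ hε hd hs hhf hN
  have hpi := H.pi_ne
  obtain ⟨e, v, hv, hv0⟩ := exists_prim H u hu.ne_zero
  have hCe : IsUnit (C (π ^ e) : L[X]) := Polynomial.isUnit_C.2 (zpow_ne_zero e hpi).isUnit
  have hvf : IsCoprime (oL O v) (oL O f) := by
    rw [hv]
    exact (isCoprime_mul_unit_left_left hCe _ _).2 huf
  have hvd : oL O v ∣ w ^ 2 - C δ * oL O f := by
    rw [hv]
    exact (hCe.mul_left_dvd).2 hd
  have hU : USL O f (oL O v) := by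
    apply h2 L O π H ϖ f (oL O v) hϖ hf hvf
    intro γ hγ hγi hγf
    refine ⟨hns γ hγ hγi, ?_⟩
    obtain ⟨hex, -⟩ := h0 L O π H ϖ f γ hϖ hf hγ hγi hγf (hns γ hγ hγi)
    obtain ⟨n, hn⟩ := hex _ hvf
    exact ⟨n, h1 L O π H ϖ f γ v w δ n hϖ hf hγ hγi hγf (hns γ hγ hγi) hv0 hvf hδ hvd hn, hn⟩
  obtain ⟨s1, p, hs1, hs1d, hp⟩ := hU
  set A := AdjoinRoot (oL O f) with hA
  set m : L[X] →+* A := AdjoinRoot.mk (oL O f) with hm
  have e1 : m (C ε) * m u = m h * m s ^ 2 := by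
    rw [← map_mul, ← map_pow, ← map_mul, ← sub_eq_zero, ← map_sub]
    exact AdjoinRoot.mk_eq_zero.2 hs
  have e2 : m (oL O v) = m (C (π ^ e)) * m u := by
    rw [hv, map_mul]
  have e3 : m (oL O v) * m s1 ^ 2 = m (oL O p) := by
    rw [← map_pow, ← map_mul, ← sub_eq_zero, ← map_sub]
    exact AdjoinRoot.mk_eq_zero.2 hs1d
  have hfL : (oL O f).Monic := hf.map _
  have hNC : ∀ c : L, Algebra.norm L (m (C c)) = c ^ f.natDegree := by
    intro c
    have h3 : m (C c) = algebraMap L A c := rfl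
    rw [h3, Algebra.norm_algebraMap]
    congr 1
    rw [(AdjoinRoot.powerBasis' hfL).finrank, AdjoinRoot.powerBasis'_dim]
    exact hf.natDegree_map _
  have hNp := norm_unit (O := O) hf hp
  obtain ⟨r, hr⟩ := hN
  have hNh : Algebra.norm L (m h) = r * r := hr
  have he : Even e := by
    have h3 : IsSquare (π ^ (-(e * f.natDegree)) *
        (ε ^ f.natDegree * Algebra.norm L (m (oL O p)))) := by
      refine ⟨r * Algebra.norm L (m s) * Algebra.norm L (m s1), ?_⟩
      have n1 := congrArg (Algebra.norm L) e1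
      have n2 := congrArg (Algebra.norm L) e2
      have n3 := congrArg (Algebra.norm L) e3
      rw [map_mul, map_mul, map_pow, hNC, hNh] at n1
      rw [map_mul, hNC] at n2
      rw [map_mul, map_pow] at n3
      have h4 : π ^ (e * (f.natDegree : ℤ)) = (π ^ e) ^ f.natDegree := by
        rw [zpow_mul, zpow_natCast]
      have h5 : (π ^ e) ^ f.natDegree ≠ 0 := pow_ne_zero _ (zpow_ne_zero e hpi)
      rw [zpow_neg, h4, ← n3, n2]
      field_simp
      linear_combination (Algebra.norm L (m s1)) ^ 2 * n1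
    have h4 : UI (O : Set L) (ε ^ f.natDegree * Algebra.norm L (m (oL O p))) := by
      refine ⟨mul_ne_zero (pow_ne_zero _ hε.1) hNp.1, O.mul_mem _ _ (pow_mem hε.2.1 _) hNp.2.1, ?_⟩
      rw [mul_inv, ← inv_pow]
      exact O.mul_mem _ _ (pow_mem hε.2.2 _) hNp.2.2
    have h5 := sq_par H h4 h3
    rw [even_neg, Int.even_mul] at h5
    rcases h5 with h6 | h6
    · exact h6
    · exfalso
      rw [Int.even_coe_nat] at h6
      exact (Nat.not_even_iff_odd.2 hodd) h6
  obtain ⟨k, hk⟩ := he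
  have hsf : IsCoprime s (oL O f) := by
    have h3 : IsCoprime (C ε * u) (oL O f) :=
      (isCoprime_mul_unit_left_left (Polynomial.isUnit_C.2 hε.1.isUnit) _ _).2 huf
    obtain ⟨q, hq⟩ := hs
    have h4 : C ε * u = h * s ^ 2 + q * oL O f := by
      linear_combination hq
    rw [h4] at h3
    have h5 : IsCoprime (h * s ^ 2) (oL O f) := IsCoprime.of_add_mul_right_left h3
    exact (IsCoprime.pow_left_iff (by norm_num)).1 (IsCoprime.of_mul_left_right h5)
  refine ⟨C (π ^ k) * s * s1, C (⟨ε, hε.2.1⟩ : O) * p, ?_, ?_, ?_⟩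
  · exact ((isCoprime_mul_unit_left_left (Polynomial.isUnit_C.2 (zpow_ne_zero k hpi).isUnit) _ _).2
      hsf).mul_left hs1
  · rw [← AdjoinRoot.mk_eq_zero, map_sub, sub_eq_zero]
    have h3 : oL O (C (⟨ε, hε.2.1⟩ : O) * p) = C ε * oL O p := by
      rw [oL, Polynomial.map_mul, Polynomial.map_C]
      rfl
    have h4 : m (C (π ^ e)) = m (C (π ^ k)) * m (C (π ^ k)) := by
      rw [← map_mul, ← C_mul, hk, zpow_add₀ hpi]
    show m (h * (C (π ^ k) * s * s1) ^ 2) = m (oL O (C (⟨ε, hε.2.1⟩ : O) * p))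
    rw [h3, map_mul, map_pow, map_mul, map_mul, map_mul, ← e3, e2, h4]
    linear_combination (-(m (C (π ^ k))) ^ 2 * (m s1) ^ 2) * e1
  · have h3 : rd O (C (⟨ε, hε.2.1⟩ : O) * p) =
        C (IsLocalRing.residue O ⟨ε, hε.2.1⟩) * rd O p := by
      rw [rd, Polynomial.map_mul, Polynomial.map_C]
    rw [h3]
    refine (isCoprime_mul_unit_left_left (Polynomial.isUnit_C.2 ?_) _ _).2 hp
    apply IsUnit.map
    refine IsUnit.of_mul_eq_one (⟨ε⁻¹, hε.2.2⟩ : O) ?_
    apply Subtype.ext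
    exact mul_inv_cancel₀ hε.1

end Pool.HYP
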